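import Mathlib
import Pool.Agent.R248.FA.Defs

/-!
# Fillings of the circle: polygons of gradients. Definitions
-/

set_option autoImplicit false

open Finset Real MeasureTheory Filter Topology Set

namespace Pool.Agent.N264.FAP

open Pool.Agent.H115R3.Filling Pool.Agent.W664.Fill Pool.Agent.R248.FA

/-- The algebraic area (in the tangent plane at `x`, with the metric `g`) enclosed by the closed polygon
whose vertices are the gradients of `f 0, …, f N` at `x`, where `f N = f 0`: half the sum of the
Jacobians of the pairs `(f j, f (j + 1))`, divided by the area density. -/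
noncomputable def gradArea (g : RiemMetric) (N : ℕ) (f : ℕ → ℝ × ℝ → ℝ) (x : ℝ × ℝ) : ℝ :=
  (∑ j ∈ range N, jac (f j) (f (j + 1)) x) / (2 * dens g x)

/-- Turning from the gradient of `f 0` to that of `f 1`, …, to that of `f N` (which is that of `f 0`)
one makes at most `w` turns counterclockwise, and never goes back; or goes back by at most `ε` in each
step, and all gradients have length one. -/
def AlmostTurns (g : RiemMetric) (N : ℕ) (f : ℕ → ℝ × ℝ → ℝ) (w ε : ℝ) (x : ℝ × ℝ) : Prop :=
  ∃ r φ : ℕ → ℝ, (∀ j ≤ N, GradPolar g (f j) x (r j) (φ j)) ∧ φ N ≤ φ 0 + 2 * π * w ∧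
    ((∀ j < N, φ j ≤ φ (j + 1)) ∨ ((∀ j ≤ N, r j = 1) ∧ ∀ j < N, φ j - ε ≤ φ (j + 1)))

section

variable {M : Type} [MetricSpace M] (S : OrientedSurface M)

/-- The integral over the surface, with respect to the Riemannian area, of the function given by `w k`
in the `k`-th chart. -/
noncomputable def surfInt (w : Fin S.faces → ℝ × ℝ → ℝ) : ℝ :=
  ∑ k, ∫ x in Sq, w k x * dens (S.metric k) x

/-- The functions `dist (p j) ·` for the boundary points `p j`, `j < N`, equally spaced on the circle
(`p N = p 0`). -/
noncomputable def distFun (N j : ℕ) (x : M) : ℝ :=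
  dist (S.boundary ((2 * π * j / N : ℝ) : AddCircle (2 * π))) x

/-- For arbitrarily large `N` the gradients of suitable `1`-Lipschitz extensions of the distance
functions of `N` equally spaced points of the circle make at most `w` turns at almost all points outside
of a set `B`, with steps back of at most `ε`, where `N ε³` and `N` times the area of `B` are as small
as we like. -/
def TurnsAtMost (w : Fin S.faces → ℝ × ℝ → ℝ) : Prop :=
  ∀ η : ℝ, 0 < η → ∃ (N : ℕ) (u : ℕ → M → ℝ) (ε : ℝ) (B : Fin S.faces → Set (ℝ × ℝ)),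
    1 / η ≤ N ∧ Extends S N u ∧ 0 ≤ ε ∧ N * ε ^ 3 ≤ η ∧ (∀ k, MeasurableSet (B k)) ∧
    N * areaOf S B ≤ η ∧ ∀ k, ∀ᵐ x ∂(volume.restrict Sq), x ∉ B k →
      AlmostTurns (S.metric k) N (inChart S u k) (w k x) ε x

end

end Pool.Agent.N264.FAP
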