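import Mathlib
import Pool.Agent.R248.FA.Ident
import Pool.Agent.N264.FAP.Defs

/-!
# Fillings of the circle: polygons of gradients

The integral over the surface of the algebraic area enclosed by the closed polygon of the gradients of
the distance functions of `N` equally spaced boundary points is `2 π² (1 - 2 / N)`.
-/

set_option autoImplicit false

open Finset Real MeasureTheory Filter Topology Set

namespace Pool.Agent.N264.FAP

open Pool.Agent.H115R3.Filling Pool.Agent.W664.Fill Pool.Agent.R248.FA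

theorem dens_pos (g : RiemMetric) {x : ℝ × ℝ} (hx : x ∈ Sq) : 0 < dens g x :=
  Real.sqrt_pos.2 (g.pos_det x hx)

/-- the Jacobian in polar form -/
theorem jac_polar (g : RiemMetric) {f h : ℝ × ℝ → ℝ} {x : ℝ × ℝ} (hx : x ∈ Sq) {r s φ ψ : ℝ}
    (hf : GradPolar g f x r φ) (hh : GradPolar g h x s ψ) :
    jac f h x = dens g x * (r * s * sin (ψ - φ)) := by
  obtain ⟨_, f1, f2⟩ := hf
  obtain ⟨_, h1, h2⟩ := hh
  have hE : 0 < √(g.E x) := Real.sqrt_pos.2 (g.pos_E x hx)
  unfold jac
  rw [f1, f2, h1, h2, Real.sin_sub]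
  field_simp
  ring

/-- the gradient of a `1`-Lipschitz function has length at most one -/
theorem polar_le_one (g : RiemMetric) {f : ℝ × ℝ → ℝ} {x : ℝ × ℝ} (hl : SegLip g f) (hx : x ∈ Sqo)
    (hd : DifferentiableAt ℝ f x) {r φ : ℝ} (hf : GradPolar g f x r φ) : r ≤ 1 := by
  obtain ⟨hr, f1, f2⟩ := hf
  have hxS : x ∈ Sq := Sqo_sub hx
  have hE0 := g.pos_E x hxS
  have hE : 0 < √(g.E x) := Real.sqrt_pos.2 hE0
  have hD := dens_pos g hxS
  have hD2 : dens g x ^ 2 = g.E x * g.G x - g.F x ^ 2 := Real.sq_sqrt (g.pos_det x hxS).le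
  have hE2 : √(g.E x) ^ 2 = g.E x := Real.sq_sqrt hE0.le
  set D := dens g x with hDdef
  set e := √(g.E x) with he
  set c := cos φ with hcdef
  set s := sin φ with hsdef
  have hc : s ^ 2 + c ^ 2 = 1 := Real.sin_sq_add_cos_sq φ
  -- the unit vector dual to the gradient
  set v1 : ℝ := c / e - s * g.F x / (e * D) with hv1
  set v2 : ℝ := s * e / D with hv2
  have key := hl.deriv_le hx hd (v1, v2)
  have hL : fderiv ℝ f x (v1, v2) = r := by
    have e1 : ((v1, v2) : ℝ × ℝ) = v1 • ((1 : ℝ), (0 : ℝ)) + v2 • ((0 : ℝ), (1 : ℝ)) := by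
      ext <;> simp
    rw [e1, map_add, map_smul, map_smul, f1, f2]
    simp only [smul_eq_mul]
    have e2 : v1 * (r * c * e) + v2 * (r * c * (g.F x / e) + r * s * (D / e)) =
        r * (s ^ 2 + c ^ 2) := by
      rw [hv1, hv2]
      field_simp
      ring
    rw [e2, hc, mul_one]
  have hN : g.E x * v1 ^ 2 + 2 * g.F x * v1 * v2 + g.G x * v2 ^ 2 = 1 := by
    have hG : g.G x * e ^ 2 = D ^ 2 + g.F x ^ 2 := by rw [hE2, hD2]; ring
    have e3 : g.E x * v1 ^ 2 + 2 * g.F x * v1 * v2 + g.G x * v2 ^ 2 =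
        (e ^ 2 * (c * D - s * g.F x) ^ 2 / (e * D) ^ 2) +
          2 * g.F x * (c * D - s * g.F x) * s / D ^ 2 + (g.G x * e ^ 2) * s ^ 2 / D ^ 2 := by
      rw [hv1, hv2, ← hE2]
      field_simp
    rw [e3, hG]
    have e4 : (e ^ 2 * (c * D - s * g.F x) ^ 2 / (e * D) ^ 2) +
          2 * g.F x * (c * D - s * g.F x) * s / D ^ 2 + (D ^ 2 + g.F x ^ 2) * s ^ 2 / D ^ 2 =
        s ^ 2 + c ^ 2 := by
      field_simp
      ring
    rw [e4, hc]
  have key' : r ^ 2 ≤ 1 := by
    rw [hL] at key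
    simpa only [hN] using key
  nlinarith

/-- every gradient has a polar form -/
theorem exists_polar (g : RiemMetric) (f : ℝ × ℝ → ℝ) {x : ℝ × ℝ} (hx : x ∈ Sq) :
    ∃ r φ : ℝ, GradPolar g f x r φ := by
  have hE : 0 < √(g.E x) := Real.sqrt_pos.2 (g.pos_E x hx)
  have hD := dens_pos g hx
  set a := fderiv ℝ f x (1, 0)
  set b := fderiv ℝ f x (0, 1)
  set z : ℂ := ⟨a / √(g.E x), (b * √(g.E x) - a / √(g.E x) * g.F x) / dens g x⟩ with hz
  refine ⟨‖z‖, z.arg, norm_nonneg _, ?_, ?_⟩
  · rw [Complex.norm_mul_cos_arg]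
    show a = a / √(g.E x) * √(g.E x)
    field_simp
  · rw [Complex.norm_mul_cos_arg, Complex.norm_mul_sin_arg]
    show b = a / √(g.E x) * (g.F x / √(g.E x)) +
      (b * √(g.E x) - a / √(g.E x) * g.F x) / dens g x * (dens g x / √(g.E x))
    field_simp
    ring

theorem jac_le (g : RiemMetric) {f h : ℝ × ℝ → ℝ} {x : ℝ × ℝ} (hf : SegLip g f) (hh : SegLip g h)
    (hx : x ∈ Sqo) (hdf : DifferentiableAt ℝ f x) (hdh : DifferentiableAt ℝ h x) :
    jac f h x ≤ dens g x := by
  obtain ⟨r, φ, h1⟩ := exists_polar g f (Sqo_sub hx)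
  obtain ⟨s, ψ, h2⟩ := exists_polar g h (Sqo_sub hx)
  have hr := polar_le_one g hf hx hdf h1
  have hs := polar_le_one g hh hx hdh h2
  rw [jac_polar g (Sqo_sub hx) h1 h2]
  have hD := dens_pos g (Sqo_sub hx)
  have hrs : 0 ≤ r * s := mul_nonneg h1.1 h2.1
  have hrs1 : r * s ≤ 1 := by nlinarith [h1.1, h2.1]
  have : r * s * sin (ψ - φ) ≤ 1 := by
    nlinarith [Real.sin_le_one (ψ - φ), Real.neg_one_le_sin (ψ - φ)]
  nlinarith

theorem dens_int (g : RiemMetric) : IntegrableOn (dens g) Sq := by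
  refine ContinuousOn.integrableOn_compact isCompact_Sq ?_
  unfold Pool.Agent.R248.FA.dens
  exact ((g.continuousOn_E.mul g.continuousOn_G).sub (g.continuousOn_F.pow 2)).sqrt

theorem sin_le_add {t ε : ℝ} (hε : 0 ≤ ε) (h : -ε ≤ t) : sin t ≤ t + ε ^ 3 / 6 := by
  have h6 : 0 ≤ ε ^ 3 / 6 := by positivity
  rcases le_or_gt 0 t with h0 | h0
  · linarith [Real.sin_le h0]
  · have h1 := Real.sin_ge_sub_cube (x := -t) (by linarith)
    rw [Real.sin_neg] at h1
    have h2 : (-t) ^ 3 ≤ ε ^ 3 := pow_le_pow_left₀ (by linarith) (by linarith) 3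
    linarith

theorem sum_sin_le (N : ℕ) (r φ : ℕ → ℝ) {w ε : ℝ} (hε : 0 ≤ ε) (h0 : ∀ j ≤ N, 0 ≤ r j)
    (h1 : ∀ j ≤ N, r j ≤ 1) (hw : φ N ≤ φ 0 + 2 * π * w)
    (h : (∀ j < N, φ j ≤ φ (j + 1)) ∨ ((∀ j ≤ N, r j = 1) ∧ ∀ j < N, φ j - ε ≤ φ (j + 1))) :
    ∑ j ∈ range N, r j * r (j + 1) * sin (φ (j + 1) - φ j) ≤ 2 * π * w + N * (ε ^ 3 / 6) := by
  have h6 : 0 ≤ ε ^ 3 / 6 := by positivity
  have hterm : ∀ j ∈ range N, r j * r (j + 1) * sin (φ (j + 1) - φ j) ≤
      (φ (j + 1) - φ j) + ε ^ 3 / 6 := by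
    intro j hj
    have hj' := Finset.mem_range.1 hj
    rcases h with h | ⟨hr, h⟩
    · have ht : 0 ≤ φ (j + 1) - φ j := by linarith [h j hj']
      have hs := Real.sin_le ht
      have a0 := h0 j (by omega)
      have b0 := h0 (j + 1) (by omega)
      have a1 := h1 j (by omega)
      have b1 := h1 (j + 1) (by omega)
      have hab : 0 ≤ r j * r (j + 1) := mul_nonneg a0 b0
      have hab1 : r j * r (j + 1) ≤ 1 := by nlinarith
      have : r j * r (j + 1) * sin (φ (j + 1) - φ j) ≤ φ (j + 1) - φ j := by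
        calc r j * r (j + 1) * sin (φ (j + 1) - φ j) ≤ r j * r (j + 1) * (φ (j + 1) - φ j) :=
              mul_le_mul_of_nonneg_left hs hab
          _ ≤ 1 * (φ (j + 1) - φ j) := mul_le_mul_of_nonneg_right hab1 ht
          _ = _ := one_mul _
      linarith
    · rw [hr j (by omega), hr (j + 1) (by omega), one_mul, one_mul]
      exact sin_le_add hε (by linarith [h j hj'])
  refine (Finset.sum_le_sum hterm).trans ?_
  rw [Finset.sum_add_distrib, Finset.sum_range_sub, Finset.sum_const, Finset.card_range,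
    nsmul_eq_mul]
  linarith

theorem gradArea_polar (g : RiemMetric) (N : ℕ) (f : ℕ → ℝ × ℝ → ℝ) {x : ℝ × ℝ} (hx : x ∈ Sq)
    (r φ : ℕ → ℝ) (h : ∀ j ≤ N, GradPolar g (f j) x (r j) (φ j)) :
    gradArea g N f x = (∑ j ∈ range N, r j * r (j + 1) * sin (φ (j + 1) - φ j)) / 2 := by
  have hD := dens_pos g hx
  unfold gradArea
  have e : ∑ j ∈ range N, jac (f j) (f (j + 1)) x =
      dens g x * ∑ j ∈ range N, r j * r (j + 1) * sin (φ (j + 1) - φ j) := by
    rw [Finset.mul_sum]
    refine Finset.sum_congr rfl fun j hj => ?_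
    have hj' := Finset.mem_range.1 hj
    exact jac_polar g hx (h j (by omega)) (h (j + 1) (by omega))
  rw [e]
  field_simp

section

variable {M : Type} [MetricSpace M] {S : OrientedSurface M}

theorem restrict_eq : (volume : Measure (ℝ × ℝ)).restrict Sq = volume.restrict Sqo :=
  (Measure.restrict_congr_set Sqh_ae_eq_Sq).symm.trans (Measure.restrict_congr_set Sqh_ae_eq_Sqo)

theorem jac_int {N : ℕ} {u : ℕ → M → ℝ} (h : Extends S N u) (k : Fin S.faces) :
    IntegrableOn (fun x => ∑ j ∈ range N, jac (inChart S u k j) (inChart S u k (j + 1)) x) Sq :=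
  integrable_finsetSum _ fun j _ =>
    (square_lim (S.metric k) (segLip S (h.lip j) k) (segLip S (h.lip (j + 1)) k)).1

/-- **The identity for the polygons of gradients.** -/
theorem identity {N : ℕ} (hN : 2 ≤ N) {u : ℕ → M → ℝ} (h : Extends S N u) :
    ∑ k, ∫ x in Sq, gradArea (S.metric k) N (inChart S u k) x * dens (S.metric k) x =
      2 * π ^ 2 * (1 - 2 / N) := by
  have h1 := h.identity hN
  have h2 : ∀ k : Fin S.faces, ∫ x in Sq, gradArea (S.metric k) N (inChart S u k) x *
      dens (S.metric k) x =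
      (∫ x in Sq, ∑ j ∈ range N, jac (inChart S u k j) (inChart S u k (j + 1)) x) / 2 := by
    intro k
    rw [← integral_div]
    refine setIntegral_congr_fun measurableSet_Sq fun x hx => ?_
    have hD := dens_pos (S.metric k) hx
    simp only [gradArea]
    field_simp
  simp_rw [h2]
  rw [← Finset.sum_div, h1]
  ring

theorem area_eq : S.area = ∑ k, ∫ x in Sq, dens (S.metric k) x := rfl

theorem bound_of_ae {N : ℕ} (hN : 2 ≤ N) {u : ℕ → M → ℝ} (h : Extends S N u)
    (c : Fin S.faces → ℝ × ℝ → ℝ) (hc : ∀ k, ∀ x ∈ Sq, 0 ≤ c k x)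
    (hci : ∀ k, IntegrableOn (fun x => c k x * dens (S.metric k) x) Sq)
    (B : Fin S.faces → Set (ℝ × ℝ)) (hB : ∀ k, MeasurableSet (B k))
    (hae : ∀ k, ∀ᵐ x ∂(volume.restrict Sq), x ∉ B k →
      ∑ j ∈ range N, jac (inChart S u k j) (inChart S u k (j + 1)) x ≤
        c k x * dens (S.metric k) x) :
    4 * π ^ 2 * (1 - 2 / N) ≤
      ∑ k, (∫ x in Sq, c k x * dens (S.metric k) x) + N * areaOf S B := by
  rw [← h.identity hN, areaOf, Finset.mul_sum, ← Finset.sum_add_distrib]
  refine Finset.sum_le_sum fun k _ => ?_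
  have hdi := dens_int (S.metric k)
  rw [← setIntegral_indicator (hB k), ← integral_const_mul,
    ← integral_add (hci k) ((hdi.indicator (hB k)).const_mul (N : ℝ))]
  refine integral_mono_ae (jac_int h k)
    ((hci k).add ((hdi.indicator (hB k)).const_mul (N : ℝ))) ?_
  have hd : ∀ᵐ x ∂((volume : Measure (ℝ × ℝ)).restrict Sq), ∀ j : ℕ,
      DifferentiableAt ℝ (inChart S u k j) x := by
    rw [restrict_eq, ae_all_iff]
    exact fun j => (segLip S (h.lip j) k).ae_diff
  have hm : ∀ᵐ x ∂((volume : Measure (ℝ × ℝ)).restrict Sq), x ∈ Sqo := by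
    rw [restrict_eq]
    exact self_mem_ae_restrict isOpen_Sqo.measurableSet
  filter_upwards [hae k, hd, hm] with x h1 h2 h3
  have hD := dens_pos (S.metric k) (Sqo_sub h3)
  have hNr : (0 : ℝ) ≤ N := Nat.cast_nonneg N
  by_cases hx : x ∈ B k
  · simp only [Set.indicator_of_mem hx]
    have h4 : ∑ j ∈ range N, jac (inChart S u k j) (inChart S u k (j + 1)) x ≤
        ∑ _j ∈ range N, dens (S.metric k) x :=
      Finset.sum_le_sum fun j _ => jac_le (S.metric k) (segLip S (h.lip j) k)
        (segLip S (h.lip (j + 1)) k) h3 (h2 j) (h2 (j + 1))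
    rw [Finset.sum_const, Finset.card_range, nsmul_eq_mul] at h4
    have : 0 ≤ c k x * dens (S.metric k) x := mul_nonneg (hc k x (Sqo_sub h3)) hD.le
    linarith
  · simp only [Set.indicator_of_notMem hx, mul_zero, add_zero]
    exact h1 hx

theorem surfInt_const (α : ℝ) : surfInt S (fun _ _ => α) = α * S.area := by
  unfold surfInt
  rw [area_eq, Finset.mul_sum]
  exact Finset.sum_congr rfl fun k _ => integral_const_mul _ _

/-- polygons of bounded area -/
theorem bound_polygon {N : ℕ} (hN : 2 ≤ N) {u : ℕ → M → ℝ} (h : Extends S N u) {α : ℝ}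
    (hae : ∀ k, ∀ᵐ x ∂(volume.restrict Sq),
      gradArea (S.metric k) N (inChart S u k) x ≤ α) :
    2 * π ^ 2 * (1 - 2 / N) ≤ α * S.area := by
  rw [← identity hN h, ← surfInt_const]
  unfold surfInt
  refine Finset.sum_le_sum fun k _ => ?_
  have hint : IntegrableOn (fun x => gradArea (S.metric k) N (inChart S u k) x *
      dens (S.metric k) x) Sq := by
    refine ((jac_int h k).div_const 2).congr ?_
    filter_upwards [self_mem_ae_restrict measurableSet_Sq] with x hx
    have hD := dens_pos (S.metric k) hx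
    simp only [gradArea]
    field_simp
  refine integral_mono_ae hint ((dens_int (S.metric k)).const_mul α) ?_
  filter_upwards [hae k, self_mem_ae_restrict measurableSet_Sq] with x h1 hx
  exact mul_le_mul_of_nonneg_right h1 (dens_pos (S.metric k) hx).le

/-- **The bound.** -/
theorem bound {N : ℕ} (hN : 2 ≤ N) {u : ℕ → M → ℝ} (h : Extends S N u)
    {w : Fin S.faces → ℝ × ℝ → ℝ} {ε : ℝ} (hw : ∀ k, ∀ x ∈ Sq, 0 ≤ w k x)
    (hwi : ∀ k, IntegrableOn (fun x => w k x * dens (S.metric k) x) Sq)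
    (hε : 0 ≤ ε) (B : Fin S.faces → Set (ℝ × ℝ)) (hB : ∀ k, MeasurableSet (B k))
    (hae : ∀ k, ∀ᵐ x ∂(volume.restrict Sq), x ∉ B k →
      AlmostTurns (S.metric k) N (inChart S u k) (w k x) ε x) :
    4 * π ^ 2 * (1 - 2 / N) ≤
      2 * π * surfInt S w + N * (ε ^ 3 / 6) * S.area + N * areaOf S B := by
  have hpi := Real.pi_pos
  have hb := bound_of_ae hN h (fun k x => 2 * π * w k x + N * (ε ^ 3 / 6))
    (fun k x hx => by have := hw k x hx; positivity)
    (fun k => by
      have h1 := ((hwi k).const_mul (2 * π)).add ((dens_int (S.metric k)).const_mul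
        ((N : ℝ) * (ε ^ 3 / 6)))
      refine h1.congr (Eventually.of_forall fun x => ?_)
      simp only [Pi.add_apply]
      ring) B hB ?_
  · refine hb.trans (le_of_eq ?_)
    congr 1
    unfold surfInt
    rw [area_eq, Finset.mul_sum, Finset.mul_sum, ← Finset.sum_add_distrib]
    refine Finset.sum_congr rfl fun k _ => ?_
    rw [← integral_const_mul, ← integral_const_mul, ← integral_add ((hwi k).const_mul _)
      ((dens_int (S.metric k)).const_mul _)]
    refine setIntegral_congr_fun measurableSet_Sq fun x _ => ?_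
    ring
  · intro k
    have hd : ∀ᵐ x ∂((volume : Measure (ℝ × ℝ)).restrict Sq), ∀ j : ℕ,
        DifferentiableAt ℝ (inChart S u k j) x := by
      rw [restrict_eq, ae_all_iff]
      exact fun j => (segLip S (h.lip j) k).ae_diff
    have hm : ∀ᵐ x ∂((volume : Measure (ℝ × ℝ)).restrict Sq), x ∈ Sqo := by
      rw [restrict_eq]
      exact self_mem_ae_restrict isOpen_Sqo.measurableSet
    filter_upwards [hae k, hd, hm] with x h1 h2 h3 hx
    obtain ⟨r, φ, h4, h5, h6⟩ := h1 hx
    have hD := dens_pos (S.metric k) (Sqo_sub h3)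
    have e : ∑ j ∈ range N, jac (inChart S u k j) (inChart S u k (j + 1)) x =
        dens (S.metric k) x * ∑ j ∈ range N, r j * r (j + 1) * sin (φ (j + 1) - φ j) := by
      rw [Finset.mul_sum]
      refine Finset.sum_congr rfl fun j hj => ?_
      have hj' := Finset.mem_range.1 hj
      exact jac_polar (S.metric k) (Sqo_sub h3) (h4 j (by omega)) (h4 (j + 1) (by omega))
    rw [e, mul_comm]
    refine mul_le_mul_of_nonneg_right ?_ hD.le
    exact sum_sin_le N r φ hε (fun j hj => (h4 j hj).1)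
      (fun j hj => polar_le_one (S.metric k) (segLip S (h.lip j) k) h3 (h2 j) (h4 j hj)) h5 h6

/-- **The limit of many points.** -/
theorem limit {w : Fin S.faces → ℝ × ℝ → ℝ} (hw : ∀ k, ∀ x ∈ Sq, 0 ≤ w k x)
    (hwi : ∀ k, IntegrableOn (fun x => w k x * dens (S.metric k) x) Sq)
    (H : TurnsAtMost S w) :
    2 * π ≤ surfInt S w := by
  have hpi := Real.pi_pos
  have hA : 0 ≤ S.area := by
    rw [area_eq]
    exact Finset.sum_nonneg fun k _ => setIntegral_nonneg measurableSet_Sq
      fun x hx => (dens_pos _ hx).le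
  have key : ∀ η : ℝ, 0 < η → η ≤ 1 / 2 →
      4 * π ^ 2 ≤ 2 * π * surfInt S w + η * (S.area + 1 + 8 * π ^ 2) := by
    intro η hη hη2
    obtain ⟨N, u, ε, B, h1, h2, h3, h4, h5, h6, h7⟩ := H η hη
    have hN2 : (2 : ℝ) ≤ N := by
      refine le_trans ?_ h1
      rw [le_div_iff₀ hη]; linarith
    have hN : 2 ≤ N := by exact_mod_cast hN2
    have hb := bound hN h2 hw hwi h3 B h5 h7
    have hNp : (0 : ℝ) < N := by linarith
    have h8 : (2 : ℝ) / N ≤ 2 * η := by
      rw [div_le_iff₀ hNp]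
      rw [div_le_iff₀ hη] at h1
      linarith
    have h9 : 4 * π ^ 2 * (2 / N) ≤ 4 * π ^ 2 * (2 * η) :=
      mul_le_mul_of_nonneg_left h8 (by positivity)
    have h10 : N * (ε ^ 3 / 6) * S.area ≤ η * S.area := by
      refine mul_le_mul_of_nonneg_right ?_ hA
      have : N * (ε ^ 3 / 6) = N * ε ^ 3 / 6 := by ring
      rw [this]
      have h0 : 0 ≤ N * ε ^ 3 := by positivity
      linarith
    nlinarith
  have hlim : 4 * π ^ 2 ≤ 2 * π * surfInt S w := by
    have ht : Tendsto (fun η : ℝ => 2 * π * surfInt S w + η * (S.area + 1 + 8 * π ^ 2)) (𝓝[>] 0)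
        (𝓝 (2 * π * surfInt S w + 0 * (S.area + 1 + 8 * π ^ 2))) := by
      refine Tendsto.mono_left ?_ nhdsWithin_le_nhds
      exact (continuous_const.add (continuous_id.mul continuous_const)).tendsto 0
    rw [zero_mul, add_zero] at ht
    refine ge_of_tendsto ht ?_
    have : Set.Ioc (0 : ℝ) (1 / 2) ∈ 𝓝[>] (0 : ℝ) := Ioc_mem_nhdsGT (by norm_num)
    filter_upwards [this] with η hη using key η hη.1 hη.2
  have : 2 * π * (2 * π) ≤ 2 * π * surfInt S w := by nlinarith
  exact le_of_mul_le_mul_left this (by positivity)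

theorem one_turn (H : TurnsAtMost S (fun _ _ => 1)) : 2 * π ≤ S.area := by
  have h := limit (fun _ _ _ => zero_le_one)
    (fun k => by simpa only [one_mul] using dens_int (S.metric k)) H
  rwa [surfInt_const, one_mul] at h

theorem extends_dist (hS : ∀ s t : AddCircle (2 * π), dist (S.boundary s) (S.boundary t) = dist s t)
    {N : ℕ} (hN : 0 < N) : Extends S N (distFun S N) := by
  have hNr : (N : ℝ) ≠ 0 := by exact_mod_cast hN.ne'
  refine ⟨fun j x y => ?_, fun j t => ?_, ?_⟩
  · unfold distFun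
    rw [dist_comm _ x, dist_comm _ y]
    exact abs_dist_sub_le _ _ _
  · exact hS _ _
  · funext x
    unfold distFun
    have e1 : (2 * π * (N : ℝ) / N) = 2 * π := by field_simp
    have e2 : (2 * π * ((0 : ℕ) : ℝ) / N) = 0 := by simp
    rw [e1, e2, AddCircle.coe_period, AddCircle.coe_zero]

/-- without shortcuts there are `1`-Lipschitz extensions -/
theorem exists_extends (hS : S.NoShortcut) {N : ℕ} (hN : 0 < N) : ∃ u, Extends S N u := by
  have hNr : (N : ℝ) ≠ 0 := by exact_mod_cast hN.ne'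
  let p : ℕ → AddCircle (2 * π) := fun j => ((2 * π * j / N : ℝ) : AddCircle (2 * π))
  let u : ℕ → M → ℝ := fun j x => ⨅ t : AddCircle (2 * π), (dist (p j) t + dist (S.boundary t) x)
  have hbb : ∀ j x, BddBelow (Set.range fun t : AddCircle (2 * π) =>
      dist (p j) t + dist (S.boundary t) x) := by
    intro j x
    refine ⟨0, ?_⟩
    rintro _ ⟨t, rfl⟩
    positivity
  have hl : ∀ j x y, u j x ≤ u j y + dist x y := by
    intro j x y
    rw [← sub_le_iff_le_add]
    refine le_ciInf fun t => ?_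
    have h1 : u j x ≤ dist (p j) t + dist (S.boundary t) x := ciInf_le (hbb j x) t
    have h2 := dist_triangle (S.boundary t) y x
    rw [dist_comm y x] at h2
    linarith
  refine ⟨u, fun j x y => ?_, fun j t => ?_, ?_⟩
  · rw [abs_le]
    constructor
    · have := hl j y x
      rw [dist_comm y x] at this
      linarith
    · linarith [hl j x y]
  · refine le_antisymm ?_ ?_
    · refine (ciInf_le (hbb j _) (t : AddCircle (2 * π))).trans ?_
      rw [dist_self, add_zero]
    · refine le_ciInf fun s => ?_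
      have h1 := hS s (t : AddCircle (2 * π))
      have h2 := dist_triangle (p j) s (t : AddCircle (2 * π))
      show dist (p j) _ ≤ _
      linarith
  · funext x
    show (⨅ t : AddCircle (2 * π), (dist (p N) t + dist (S.boundary t) x)) =
      ⨅ t : AddCircle (2 * π), (dist (p 0) t + dist (S.boundary t) x)
    have e : p N = p 0 := by
      show ((2 * π * (N : ℝ) / N : ℝ) : AddCircle (2 * π)) =
        ((2 * π * ((0 : ℕ) : ℝ) / N : ℝ) : AddCircle (2 * π))
      have e1 : (2 * π * (N : ℝ) / N) = 2 * π := by field_simp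
      have e2 : (2 * π * ((0 : ℕ) : ℝ) / N) = 0 := by simp
      rw [e1, e2, AddCircle.coe_period, AddCircle.coe_zero]
    rw [e]

end

end Pool.Agent.N264.FAP
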